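import Pool.Graph.R_seed8.Results.MP_ac1d8d_gt.BoundedGroup

/-! Connectedness of the complement of a set of discs, and modification of an element of the group:
it can be changed into one which fixes a set of discs and agrees with it on another disc. -/

set_option autoImplicit false

open scoped Topology ContDiff NNReal commutatorElement
open Set Filter Complex Metric

noncomputable section

namespace Pool.Agent.KS6_77.AreaB

open Pool.Agent.Helper186.Area

/-- the surface without the discs with indices in `K` -/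
def Out (K : Set ℤ) : Set ℂ := {z | Esc z ∧ ∀ k ∈ K, 1 < ‖z - k * tau‖}

lemma isOpen_out (K : Set ℤ) : IsOpen (Out K) := by
  have h1 : IsOpen {z : ℂ | ∀ k ∈ K, 1 < ‖z - k * tau‖} := by
    rw [isOpen_iff_mem_nhds]
    intro z hz
    rcases lt_or_ge 1 ‖red z‖ with h | h
    · filter_upwards [eventually_red_gt (z := z) (a := 1) (by norm_num) h] with z' hz' k hk
      by_contra hc
      have h2 : ‖z' - k * tau‖ < 5 := by linarith [not_lt.1 hc]
      rw [red_of_near h2] at hz'
      exact hc hz'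
    · have hc : Continuous (fun z' : ℂ => ‖z' - (idx z : ℂ) * tau‖) := by fun_prop
      have h5 : ‖z - (idx z : ℂ) * tau‖ < 5 := by
        have : ‖z - (idx z : ℂ) * tau‖ = ‖red z‖ := rfl
        linarith
      filter_upwards [hc.continuousAt.eventually (gt_mem_nhds h5)] with z' hz' k hk
      by_contra hcon
      have h2 : ‖z' - k * tau‖ < 5 := by linarith [not_lt.1 hcon]
      have h3 : k = idx z := by rw [← idx_of_near h2, idx_of_near hz']
      subst h3
      exact absurd (hz _ hk) (not_lt.2 h)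
  exact surf.isOpen.inter h1

lemma isConn_out (K : Set ℤ) : IsPreconnected (Out K) := by
  set X : Set ℂ := Out K with hX
  set Hp : Set ℂ := {z | 4 < ht z} with hHp
  set Hm : Set ℂ := {z | ht z < -4} with hHm
  have hlin : IsLinearMap ℝ ht := ⟨fun x y => by simp [ht]; ring, fun c x => by simp [ht]; ring⟩
  have cHp : Convex ℝ Hp := convex_halfSpace_gt hlin 4
  have cHm : Convex ℝ Hm := convex_halfSpace_lt hlin (-4)
  have hht : ∀ (z : ℂ) (k : ℤ), ht (z - k * tau) = ht z := by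
    intro z k
    simp [ht, tau_re, tau_im]
  have hHpX : Hp ⊆ X := by
    intro z hz
    have hz' : 4 < ht z := hz
    refine ⟨esc_of_ht (by linarith), fun k _ => ?_⟩
    have := ht_le (z - k * tau)
    rw [hht, abs_of_pos (by linarith)] at this
    linarith
  have hHmX : Hm ⊆ X := by
    intro z hz
    have hz' : ht z < -4 := hz
    refine ⟨esc_of_ht (by linarith), fun k _ => ?_⟩
    have := ht_le (z - k * tau)
    rw [hht, abs_of_neg (by linarith)] at this
    linarith
  -- perpendicular lines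
  set ln : ℂ → ℝ → ℂ := fun y t => y + (t : ℂ) * (-1 + I) with hln
  have hlnc : ∀ y, Continuous (ln y) := fun y => by rw [hln]; fun_prop
  have hlnh : ∀ y t, ht (ln y t) = ht y + 2 * t := by
    intro y t; simp [hln, ht]; ring
  have hlnk : ∀ y t (k : ℤ), ln y t - k * tau = ln (y - k * tau) t := by
    intro y t k; simp only [hln]; ring
  have hlnn : ∀ y t, ‖ln y t‖ ^ 2 = ‖y‖ ^ 2 + 2 * t * ht y + 2 * t ^ 2 := by
    intro y t
    rw [Complex.sq_norm, Complex.sq_norm, Complex.normSq_apply, Complex.normSq_apply]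
    simp [hln, ht]; ring
  have h18 : ∀ k : ℤ, (18 : ℝ) ≤ ‖(3 + 3 * I - k * tau : ℂ)‖ ^ 2 := by
    intro k
    rw [Complex.sq_norm, Complex.normSq_apply]
    simp [tau_re, tau_im]
    rcases le_or_gt k 0 with h | h
    · have h1 : (k : ℝ) ≤ 0 := by exact_mod_cast h
      nlinarith
    · have h1 : (1 : ℝ) ≤ k := by exact_mod_cast h
      nlinarith
  have hx0 : ∀ t, ln (3 + 3 * I) t ∈ X := by
    intro t
    have h1 : ht (3 + 3 * I) = 0 := by simp [ht]
    refine ⟨?_, fun k _ => ?_⟩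
    · by_cases ht0 : t = 0
      · rw [ht0]; simp only [hln, ofReal_zero, zero_mul, add_zero]; exact esc_three
      · refine esc_of_ht ?_
        rw [hlnh, h1, zero_add]
        exact mul_ne_zero two_ne_zero ht0
    · rw [hlnk]
      have := hlnn (3 + 3 * I - k * tau) t
      rw [hht, h1] at this
      have h2 := h18 k
      nlinarith [norm_nonneg (ln (3 + 3 * I - k * tau) t), sq_nonneg t]
  have hL : IsPreconnected (range (ln (3 + 3 * I))) := isPreconnected_range (hlnc _)
  have hB1 : IsPreconnected (Hp ∪ range (ln (3 + 3 * I))) := by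
    refine IsPreconnected.union (ln (3 + 3 * I) 3) ?_ ⟨3, rfl⟩ cHp.isPreconnected hL
    change 4 < ht _
    rw [hlnh]; simp [ht]; norm_num
  have hB : IsPreconnected (Hp ∪ range (ln (3 + 3 * I)) ∪ Hm) := by
    refine IsPreconnected.union (ln (3 + 3 * I) (-3)) (Or.inr ⟨-3, rfl⟩) ?_ hB1 cHm.isPreconnected
    change ht _ < -4
    rw [hlnh]; simp [ht]; norm_num
  have hBX : Hp ∪ range (ln (3 + 3 * I)) ∪ Hm ⊆ X := by
    rintro z ((hz | ⟨t, rfl⟩) | hz)
    · exact hHpX hz
    · exact hx0 t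
    · exact hHmX hz
  refine isPreconnected_of_forall (3 + 3 * I : ℂ) fun y hy => ?_
  have hray : ∀ s : ℝ, s ≠ 0 → 0 ≤ s * ht y → ∀ t, 0 ≤ t → ln y (s * t) ∈ X := by
    intro s hs hsy t ht0
    refine ⟨?_, fun k hk => (hy.2 k hk).trans_le ?_⟩
    · rcases eq_or_lt_of_le ht0 with h | h
      · rw [← h, mul_zero]; simp only [hln, ofReal_zero, zero_mul, add_zero]; exact hy.1
      · refine esc_of_ht ?_
        rw [hlnh]
        intro h0
        have h1 : s * (ht y + 2 * (s * t)) = 0 := by rw [h0, mul_zero]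
        have h2 : 0 < s * s * t := mul_pos (mul_self_pos.2 hs) h
        nlinarith
    · rw [hlnk]
      have h1 := hlnn (y - k * tau) (s * t)
      rw [hht] at h1
      have h2 : 0 ≤ 2 * (s * t) * ht y := by
        have : 2 * (s * t) * ht y = 2 * t * (s * ht y) := by ring
        rw [this]; positivity
      have h3 : ‖y - k * tau‖ ^ 2 ≤ ‖ln (y - k * tau) (s * t)‖ ^ 2 := by
        rw [h1]; nlinarith [sq_nonneg (s * t)]
      exact (sq_le_sq₀ (norm_nonneg _) (norm_nonneg _)).1 h3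
  have hRc : ∀ s : ℝ, IsPreconnected ((fun t => ln y (s * t)) '' Ici 0) := fun s =>
    isPreconnected_Ici.image _ (((hlnc y).comp (continuous_const.mul continuous_id)).continuousOn)
  rcases le_or_gt 0 (ht y) with hy0 | hy0
  · refine ⟨(Hp ∪ range (ln (3 + 3 * I)) ∪ Hm) ∪ ((fun t => ln y (1 * t)) '' Ici 0), ?_, ?_, ?_, ?_⟩
    · refine union_subset hBX ?_
      rintro _ ⟨t, ht0, rfl⟩
      exact hray 1 one_ne_zero (by linarith) t ht0
    · exact Or.inl (Or.inl (Or.inr ⟨0, by simp [hln]⟩))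
    · exact Or.inr ⟨0, self_mem_Ici, by simp [hln]⟩
    · refine IsPreconnected.union (ln y (1 * 3)) (Or.inl (Or.inl ?_)) ⟨3, by simp, rfl⟩ hB (hRc 1)
      change 4 < ht _
      rw [hlnh]; linarith
  · refine ⟨(Hp ∪ range (ln (3 + 3 * I)) ∪ Hm) ∪ ((fun t => ln y (-1 * t)) '' Ici 0),
      ?_, ?_, ?_, ?_⟩
    · refine union_subset hBX ?_
      rintro _ ⟨t, ht0, rfl⟩
      exact hray (-1) (by norm_num) (by linarith) t ht0
    · exact Or.inl (Or.inl (Or.inr ⟨0, by simp [hln]⟩))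
    · exact Or.inr ⟨0, self_mem_Ici, by simp [hln]⟩
    · refine IsPreconnected.union (ln y (-1 * 3)) (Or.inr ?_) ⟨3, by simp, rfl⟩ hB (hRc (-1))
      change ht _ < -4
      rw [hlnh]; linarith

/-- An element of the group can be modified so that it fixes the discs with indices in `K` and is
unchanged on a disc contained in the `n`-th disc. -/
theorem agree {φ : Equiv.Perm ℂ} (hφ : φ ∈ surf.G) {n : ℤ} {K : Set ℤ} (hn : n ∉ K)
    (hsep : ∀ k ∈ K, ∀ z, Esc z → ‖z - n * tau‖ ≤ 1 → 1 < ‖φ z - k * tau‖) :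
    ∃ g ∈ surf.G, (∀ k ∈ K, ∀ z, ‖z - k * tau‖ ≤ 1 → g z = z) ∧
      ∀ z, Esc z → 1 ≤ ‖z‖ → g (gam n (gam 1 z)) = φ (gam n (gam 1 z)) := by
  set Y : Set ℂ := Out K with hY
  have hYo : IsOpen Y := isOpen_out K
  have hYS : Y ⊆ surf.S := fun z hz => hz.1
  have hYc : IsPreconnected Y := isConn_out K
  set γ : Equiv.Perm ℂ := gam n with hγ
  have hγG : γ ∈ surf.G := gam_mem n
  set p : ℂ := γ 10 with hp
  have hpE : Esc p := esc_gam.2 esc_ten
  have hpn : ‖p - n * tau‖ ≤ 1 := by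
    rw [hp, hγ, gam_norm esc_ten]; norm_num
  have hne : ∀ k ∈ K, n ≠ k := fun k hk h => hn (h ▸ hk)
  have hpY : p ∈ Y := ⟨hpE, fun k hk => disc_sep (hne k hk) hpn⟩
  have hφpY : φ p ∈ Y := ⟨G_maps (R := surf) hφ hpE, fun k hk => hsep k hk p hpE hpn⟩
  obtain ⟨ψ, hψ, hψs, hψe⟩ := exists_germ_extension hYo hYS hYc hφ hpY hφpY
  obtain ⟨N, hN, hNo, hpN⟩ := _root_.eventually_nhds_iff.1 hψe
  -- a neighbourhood of the point 10
  set N' : Set ℂ := surf.S ∩ γ ⁻¹' N with hN'
  have hN'o : IsOpen N' := (G_continuousOn (R := surf) hγG).isOpen_inter_preimage surf.isOpen hNo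
  have h10 : (10 : ℂ) ∈ N' := ⟨esc_ten, hpN⟩
  obtain ⟨η, hη, hball⟩ := Metric.isOpen_iff.1 hN'o 10 h10
  obtain ⟨X, D, θ, θ', H, hD⟩ := exists_sd hη
  have hDN : D ⊆ N' := fun z hz => hball (by rw [mem_ball, dist_eq_norm]; exact hD z hz)
  set P : Equiv.Perm ℂ := γ⁻¹ * φ⁻¹ * ψ * γ with hP
  have hPG : P ∈ surf.G := surf.G.mul_mem (surf.G.mul_mem (surf.G.mul_mem (surf.G.inv_mem hγG)
    (surf.G.inv_mem hφ)) hψ) hγG
  have hPa : ∀ v, P v = γ⁻¹ (φ⁻¹ (ψ (γ v))) := fun v => rfl
  have hPN : ∀ v ∈ N', P v = v := by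
    intro v hv
    rw [hPa, hN (γ v) hv.2, inv_app, inv_app]
  obtain ⟨k, hk, hk1, hk2⟩ := exists_lift H hPG hN'o hDN hPN
  set g : Equiv.Perm ℂ := φ * γ * k * γ⁻¹ with hg
  have hgG : g ∈ surf.G := surf.G.mul_mem (surf.G.mul_mem (surf.G.mul_mem hφ hγG) hk)
    (surf.G.inv_mem hγG)
  have hga : ∀ z, g z = φ (γ (k (γ⁻¹ z))) := fun z => rfl
  refine ⟨g, hgG, ?_, ?_⟩
  · intro j hj w hwj
    by_cases hwE : Esc w
    · have hwn : 1 < ‖w - n * tau‖ := disc_sep (hne j hj).symm hwj
      obtain ⟨h1, h2⟩ := gam_inv_small hwE hwn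
      rw [← hγ] at h1 h2
      obtain ⟨h3, h4⟩ := H.small (γ⁻¹ w) (by linarith)
      rw [hga, hk2 _ h3 h1, h4, hPa, app_inv, hψs w (fun h => absurd hwj (not_le.2 (h.2 j hj)))]
      have h5 : Esc (φ⁻¹ w) := G_maps (R := surf) (surf.G.inv_mem hφ) hwE
      have h6 : 1 < ‖φ⁻¹ w - n * tau‖ := by
        by_contra h
        have := hsep j hj _ h5 (not_lt.1 h)
        rw [app_inv] at this
        exact absurd hwj (not_le.2 this)
      obtain ⟨h7, h8⟩ := gam_inv_small h5 h6
      rw [← hγ] at h7 h8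
      rw [(H.small' (w := γ⁻¹ (φ⁻¹ w)) (by linarith)).2, app_inv, app_inv]
    · exact hgG.1 w hwE
  · intro z hz hz1
    have h1 : gam 1 z ∈ X := by
      refine H.inX _ ?_
      have h2 := gam_norm (n := 1) hz
      have h3 : ‖z‖⁻¹ ≤ 1 := inv_le_one_of_one_le₀ hz1
      simp only [Int.cast_one, one_mul] at h2
      linarith
    rw [hga, inv_app, hk1 _ h1]

end Pool.Agent.KS6_77.AreaB
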