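import Pool.Agent.KS6_77.AreaB.Main

/-! Consequences for the group of all area preserving diffeomorphisms. -/

set_option autoImplicit false

open scoped Topology ContDiff Manifold commutatorElement
open Pool.Agent.Results.MP_ac1d8d_gt.PerfectSurface Pool.Agent.Y136.AreaBdd
open Pool.Agent.Helper186.Area

namespace Pool.Agent.KS6_77.AreaB

open Classical in
/-- Length functions on the group of the area preserving diffeomorphisms are bounded. -/
theorem length_bdd (ν : DiffArea area → ℝ) (h1 : ∀ g, ν g⁻¹ = ν g)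
    (h2 : ∀ g h, ν (g * h) ≤ ν g + ν h) : ∃ C : ℝ, ∀ g, ν g ≤ C := by
  set μ : Equiv.Perm ℂ → ℝ := fun g =>
    if h : ∃ g' : DiffArea area, Ex g'.1 = g then ν h.choose else 0 with hμ
  have e : ∀ g : DiffArea area, μ (Ex g.1) = ν g := by
    intro g
    have h : ∃ g' : DiffArea area, Ex g'.1 = Ex g.1 := ⟨g, rfl⟩
    have h3 : h.choose = g := Subtype.ext (Ex_injective h.choose_spec)
    simp only [hμ, dif_pos h, h3]
  have lift : ∀ g ∈ surf.G, ∃ g' : DiffArea area, Ex g'.1 = g := by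
    intro g hg
    obtain ⟨g', rfl⟩ := Ex_surj hg
    exact ⟨⟨g', (mem_iff g').2 hg⟩, rfl⟩
  have hL : Len μ := by
    refine ⟨fun g hg => ?_, fun g hg h hh => ?_⟩
    · obtain ⟨g', rfl⟩ := lift g hg
      have e1 : (Ex g'.1)⁻¹ = Ex (g'⁻¹ : DiffArea area).1 := by rw [← map_inv]; rfl
      rw [e1, e, e, h1]
    · obtain ⟨g', rfl⟩ := lift g hg
      obtain ⟨h', rfl⟩ := lift h hh
      have e1 : Ex g'.1 * Ex h'.1 = Ex (g' * h' : DiffArea area).1 := by rw [← map_mul]; rfl
      rw [e1, e, e, e]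
      exact h2 g' h'
  obtain ⟨C, hC⟩ := bdd hL
  refine ⟨C, fun g => ?_⟩
  rw [← e]
  exact hC _ ((mem_iff g.1).1 g.2)

section General

variable {G : Type} [Group G]

/-- strong boundedness: every length function is bounded -/
def StronglyBounded (G : Type) [Group G] : Prop :=
  ∀ ν : G → ℝ, (∀ g, ν g⁻¹ = ν g) → (∀ g h, ν (g * h) ≤ ν g + ν h) → ∃ C : ℝ, ∀ g, ν g ≤ C

theorem orbits_bdd (hG : StronglyBounded G) (X : Type) [PseudoMetricSpace X] [MulAction G X]
    [IsIsometricSMul G X] (x : X) : Bornology.IsBounded (MulAction.orbit G x) := by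
  obtain ⟨C, hC⟩ := hG (fun g => dist x (g • x)) (fun g => by
      change dist x (g⁻¹ • x) = dist x (g • x)
      rw [← dist_smul g x (g⁻¹ • x), smul_inv_smul, dist_comm]) (fun g h => by
      change dist x ((g * h) • x) ≤ dist x (g • x) + dist x (h • x)
      refine (dist_triangle _ (g • x) _).trans ?_
      rw [mul_smul, dist_smul])
  refine (Metric.isBounded_closedBall (x := x) (r := C)).subset ?_
  rintro _ ⟨g, rfl⟩
  rw [Metric.mem_closedBall, dist_comm]
  exact hC g

theorem chain (hG : StronglyBounded G) (K : ℕ → Subgroup G) (hK : Monotone K)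
    (hU : ∀ g, ∃ i, g ∈ K i) : ∃ i, K i = ⊤ := by
  have hm : ∀ g, g ∈ K (sInf {i : ℕ | g ∈ K i}) := fun g => Nat.sInf_mem (hU g)
  obtain ⟨C, hC⟩ := hG (fun g => ((sInf {i : ℕ | g ∈ K i} : ℕ) : ℝ)) (fun g => by
      have : {i : ℕ | g⁻¹ ∈ K i} = {i : ℕ | g ∈ K i} := by
        ext i
        exact ⟨fun h => by simpa using (K i).inv_mem h, fun h => (K i).inv_mem h⟩
      simp only [this]) (fun g h => by
      have h1 : sInf {i : ℕ | g * h ∈ K i} ≤
          sInf {i : ℕ | g ∈ K i} + sInf {i : ℕ | h ∈ K i} := by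
        refine Nat.sInf_le ?_
        exact mul_mem (hK (Nat.le_add_right _ _) (hm g)) (hK (Nat.le_add_left _ _) (hm h))
      exact_mod_cast h1)
  obtain ⟨N, hN⟩ := exists_nat_gt C
  refine ⟨N, eq_top_iff.2 fun g _ => ?_⟩
  have h1 : ((sInf {i : ℕ | g ∈ K i} : ℕ) : ℝ) < N := (hC g).trans_lt hN
  exact hK (by exact_mod_cast h1.le) (hm g)

/-- `g` is a product of `n` elements of `E` and inverses of such -/
def IsWord (E : Set G) (n : ℕ) (g : G) : Prop :=
  ∃ l : List G, l.length = n ∧ (∀ y ∈ l, y ∈ E ∨ y⁻¹ ∈ E) ∧ l.prod = g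

theorem width (hG : StronglyBounded G) (E : Set G) (hE : Subgroup.closure E = ⊤) :
    ∃ n : ℕ, ∀ g, ∃ m ≤ n, IsWord E m g := by
  have hU : ∀ g, ∃ n, IsWord E n g := by
    intro g
    have hg : g ∈ Subgroup.closure E := by rw [hE]; trivial
    have hg' : g ∈ Submonoid.closure (E ∪ E⁻¹) := by
      rw [← Subgroup.closure_toSubmonoid]; exact hg
    obtain ⟨l, h1, h2⟩ := Submonoid.exists_list_of_mem_closure hg'
    exact ⟨_, l, rfl, fun y hy => (h1 y hy).imp id (fun h => Set.mem_inv.1 h), h2⟩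
  have hm : ∀ g, IsWord E (sInf {i : ℕ | IsWord E i g}) g := fun g => Nat.sInf_mem (hU g)
  have hinv : ∀ g n, IsWord E n g → IsWord E n g⁻¹ := by
    rintro g n ⟨l, h1, h2, h3⟩
    refine ⟨(l.map (·⁻¹)).reverse, by simp [h1], fun y hy => ?_, by
      rw [← h3, List.prod_inv_reverse]⟩
    rw [List.mem_reverse, List.mem_map] at hy
    obtain ⟨z, hz, rfl⟩ := hy
    rcases h2 z hz with h | h
    · right; rwa [inv_inv]
    · left; exact h
  obtain ⟨C, hC⟩ := hG (fun g => ((sInf {i : ℕ | IsWord E i g} : ℕ) : ℝ)) (fun g => by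
      have : {i : ℕ | IsWord E i g⁻¹} = {i : ℕ | IsWord E i g} := by
        ext i
        exact ⟨fun h => by have := hinv _ _ h; rwa [inv_inv] at this, hinv _ _⟩
      simp only [this]) (fun g h => by
      have h1 : sInf {i : ℕ | IsWord E i (g * h)} ≤
          sInf {i : ℕ | IsWord E i g} + sInf {i : ℕ | IsWord E i h} := by
        refine Nat.sInf_le ?_
        obtain ⟨l, a1, a2, a3⟩ := hm g
        obtain ⟨l', b1, b2, b3⟩ := hm h
        refine ⟨l ++ l', by rw [List.length_append, a1, b1], fun y hy => ?_, by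
          rw [List.prod_append, a3, b3]⟩
        rcases List.mem_append.1 hy with h | h
        · exact a2 y h
        · exact b2 y h
      exact_mod_cast h1)
  obtain ⟨N, hN⟩ := exists_nat_gt C
  refine ⟨N, fun g => ⟨_, ?_, hm g⟩⟩
  have h1 : ((sInf {i : ℕ | IsWord E i g} : ℕ) : ℝ) < N := (hC g).trans_lt hN
  exact_mod_cast h1.le

end General

theorem strong : StronglyBounded (DiffArea area) := length_bdd

end Pool.Agent.KS6_77.AreaB
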