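import Pool.Agent.KS6_77.AreaB.Prod

/-! Length functions on the group are bounded. -/

set_option autoImplicit false

open scoped Topology ContDiff NNReal commutatorElement
open Set Filter Complex Metric

noncomputable section

namespace Pool.Agent.KS6_77.AreaB

open Pool.Agent.Helper186.Area

/-- a length function on the subgroup -/
structure Len (ν : Equiv.Perm ℂ → ℝ) : Prop where
  inv : ∀ g ∈ surf.G, ν g⁻¹ = ν g
  mul : ∀ g ∈ surf.G, ∀ h ∈ surf.G, ν (g * h) ≤ ν g + ν h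

lemma Len.conj_le {ν : Equiv.Perm ℂ → ℝ} (hν : Len ν) {a g : Equiv.Perm ℂ} (ha : a ∈ surf.G)
    (hg : g ∈ surf.G) : ν (a * g * a⁻¹) ≤ ν g + 2 * ν a := by
  have h1 := hν.mul (a * g) (surf.G.mul_mem ha hg) a⁻¹ (surf.G.inv_mem ha)
  have h2 := hν.mul a ha g hg
  rw [hν.inv a ha] at h1
  linarith

lemma Len.le_conj {ν : Equiv.Perm ℂ → ℝ} (hν : Len ν) {a g : Equiv.Perm ℂ} (ha : a ∈ surf.G)
    (hg : g ∈ surf.G) : ν g ≤ ν (a * g * a⁻¹) + 2 * ν a := by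
  have h1 := hν.conj_le (a := a⁻¹) (g := a * g * a⁻¹) (surf.G.inv_mem ha)
    (surf.G.mul_mem (surf.G.mul_mem ha hg) (surf.G.inv_mem ha))
  have h2 : a⁻¹ * (a * g * a⁻¹) * a⁻¹⁻¹ = g := by group
  rw [h2, hν.inv a ha] at h1
  exact h1

lemma comm_bdd {ν : Equiv.Perm ℂ → ℝ} (hν : Len ν) (k : H0) :
    ∃ C : ℝ, ∀ h : H0, ν (h.1 * k.1 * h.1⁻¹ * k.1⁻¹) ≤ C := by
  have h1 : ∃ i : ℕ, ∀ h : H0, ∃ x : ℤ → H0, x i = h ∧ ν (PP x) ≤ i := by
    by_contra hc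
    push Not at hc
    choose h hh using hc
    obtain ⟨N, hN⟩ := exists_nat_gt (ν (PP (fun k : ℤ => h k.toNat)))
    have := hh N (fun k => h k.toNat) (by simp)
    linarith
  obtain ⟨i, hi⟩ := h1
  set s := PP (Pi.mulSingle (i : ℤ) k) with hs
  have hsG : s ∈ surf.G := PP_mem _
  refine ⟨2 * i + 2 * ν s + 2 * ν (Tr i), fun h => ?_⟩
  obtain ⟨x, hx, hxν⟩ := hi h
  have e1 : x * Pi.mulSingle (i : ℤ) k * x⁻¹ * (Pi.mulSingle (i : ℤ) k)⁻¹ =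
      Pi.mulSingle (i : ℤ) (h * k * h⁻¹ * k⁻¹) := by
    funext j
    by_cases hj : j = i
    · subst hj
      simp [hx]
    · simp [hj]
  have e : PP x * s * (PP x)⁻¹ * s⁻¹ =
      Tr i * (h.1 * k.1 * h.1⁻¹ * k.1⁻¹) * (Tr i)⁻¹ := by
    have h2 := PP_single' i (h * k * h⁻¹ * k⁻¹)
    rw [← e1, map_mul, map_mul, map_mul, map_inv, map_inv] at h2
    exact h2
  have hG : h.1 * k.1 * h.1⁻¹ * k.1⁻¹ ∈ surf.G := (h * k * h⁻¹ * k⁻¹).2.1
  have h3 := hν.le_conj (Tr_mem i) hG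
  rw [← e] at h3
  have hxG := PP_mem x
  have h4 := hν.mul (PP x * s * (PP x)⁻¹) (surf.G.mul_mem (surf.G.mul_mem hxG hsG)
    (surf.G.inv_mem hxG)) s⁻¹ (surf.G.inv_mem hsG)
  have h5 := hν.conj_le hxG hsG
  rw [hν.inv s hsG] at h4
  linarith

/-- An element which shifts the discs with positive indices and fixes a disc. -/
theorem exists_shift : ∃ t ∈ surf.G,
    (∀ z, Esc z → 1 ≤ ‖z‖ → t (gam (-1) (gam 1 z)) = gam (-1) (gam 1 z)) ∧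
    ∀ z, Esc z → 1 ≤ idx z → ‖red z‖ < 1 → t z = Tr 1 z := by
  obtain ⟨c, hc, h1, h2⟩ := agree (φ := Tr (-1)) (Tr_mem _) (n := 0) (K := {k | 2 ≤ k}) (by simp)
    (by
      intro k hk z hz hz1
      have hk' : (2 : ℤ) ≤ k := hk
      rw [Tr_apply hz]
      refine disc_sep (n := -1) (j := k) (by omega) ?_
      have : z + ((-1 : ℤ) : ℂ) * tau - ((-1 : ℤ) : ℂ) * tau = z - ((0 : ℤ) : ℂ) * tau := by
        push_cast; ring
      rw [this]; exact hz1)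
  refine ⟨c * Tr 1, surf.G.mul_mem hc (Tr_mem 1), fun z hz hz1 => ?_, fun z hz hi hr => ?_⟩
  · have hw : Esc (gam 1 z) := esc_gam.2 hz
    have hw' : Esc (gam (-1) (gam 1 z)) := esc_gam.2 hw
    have hw0 : Esc (gam 0 (gam 1 z)) := esc_gam.2 hw
    have e1 : Tr 1 (gam (-1) (gam 1 z)) = gam 0 (gam 1 z) := by
      rw [Tr_apply hw', gam_apply hw, gam_apply hw]
      push_cast; ring
    rw [Equiv.Perm.mul_apply, e1, h2 z hz hz1, Tr_apply hw0, gam_apply hw, gam_apply hw]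
    push_cast; ring
  · rw [Equiv.Perm.mul_apply]
    refine h1 (idx z + 1) (show (2 : ℤ) ≤ idx z + 1 by omega) _ ?_
    rw [Tr_apply hz]
    have : z + ((1 : ℤ) : ℂ) * tau - ((idx z + 1 : ℤ) : ℂ) * tau = red z := by
      rw [red, cen]; push_cast; ring
    rw [this]
    exact hr.le

lemma shift_comm {t : Equiv.Perm ℂ}
    (h2 : ∀ z, Esc z → 1 ≤ idx z → ‖red z‖ < 1 → t z = Tr 1 z) (g : H0) :
    ∃ Ψ ∈ surf.G, (∀ z, Esc z → 1 ≤ ‖z‖ → Ψ (gam (-1) (gam 1 z)) = gam (-1) (gam 1 z)) ∧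
      Tr 1 * g.1 * (Tr 1)⁻¹ = Ψ * t * Ψ⁻¹ * t⁻¹ := by
  set x : ℤ → H0 := fun k => if 1 ≤ k then g else 1 with hx
  have hx1 : ∀ k, 1 ≤ k → x k = g := fun k hk => by simp [hx, hk]
  have hx0 : ∀ k, ¬ 1 ≤ k → x k = 1 := fun k hk => by simp only [hx, if_neg hk]
  have hout : ∀ z, ¬ (Esc z ∧ 1 ≤ idx z ∧ ‖red z‖ < 1) → PP x z = z := by
    intro z hz
    by_cases hE : Esc z
    · rw [PP_apply]
      by_cases hi : 1 ≤ idx z
      · have hr : red z ∉ K0 := fun h => hz ⟨hE, hi, h⟩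
        rw [hx1 _ hi, g.2.2 _ hr, red_cen]
      · rw [hx0 _ hi]
        exact red_cen z
    · exact (PP_mem x).1 z hE
  refine ⟨PP x, PP_mem x, fun z hz hz1 => ?_, ?_⟩
  · refine hout _ fun h => ?_
    have hw : Esc (gam 1 z) := esc_gam.2 hz
    have h3 : ‖gam (-1) (gam 1 z) - ((-1 : ℤ) : ℂ) * tau‖ < 5 := by
      rw [gam_norm hw]
      have h4 : 1 < ‖gam 1 z‖ := by
        have h5 : ‖gam 1 z - ((1 : ℤ) : ℂ) * tau‖ ≤ 1 := by
          rw [gam_norm hz]; exact inv_le_one_of_one_le₀ hz1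
        have h6 := disc_sep (n := 1) (j := 0) (by norm_num) h5
        simpa using h6
      have := inv_lt_one_of_one_lt₀ h4
      linarith
    have := idx_of_near h3
    omega
  · have hcomm : Commute (t⁻¹ * Tr 1) (PP x) := by
      refine Equiv.Perm.Disjoint.commute fun z => ?_
      by_cases hA : Esc z ∧ 1 ≤ idx z ∧ ‖red z‖ < 1
      · left
        rw [Equiv.Perm.mul_apply, ← h2 z hA.1 hA.2.1 hA.2.2]
        exact inv_app t z
      · right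
        exact hout z hA
    have e1 : t * (PP x)⁻¹ * t⁻¹ = Tr 1 * (PP x)⁻¹ * (Tr 1)⁻¹ := by
      have h3 := hcomm.inv_right.eq
      -- `t⁻¹ T Ψ⁻¹ = Ψ⁻¹ t⁻¹ T`
      have h4 : t * ((t⁻¹ * Tr 1) * (PP x)⁻¹) * (Tr 1)⁻¹ =
          t * ((PP x)⁻¹ * (t⁻¹ * Tr 1)) * (Tr 1)⁻¹ := by rw [h3]
      have h5 : t * ((t⁻¹ * Tr 1) * (PP x)⁻¹) * (Tr 1)⁻¹ = Tr 1 * (PP x)⁻¹ * (Tr 1)⁻¹ := by group
      have h6 : t * ((PP x)⁻¹ * (t⁻¹ * Tr 1)) * (Tr 1)⁻¹ = t * (PP x)⁻¹ * t⁻¹ := by group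
      rw [← h5, h4, h6]
    have e2 : Tr 1 * (PP x)⁻¹ * (Tr 1)⁻¹ = (PP (fun k => x (k - 1)))⁻¹ := by
      rw [← Tr_PP]; group
    have e3 : x * (fun k => x (k - 1))⁻¹ = Pi.mulSingle 1 g := by
      funext j
      rcases lt_trichotomy j 1 with h | h | h
      · rw [Pi.mulSingle_eq_of_ne (by omega), Pi.mul_apply, Pi.inv_apply, hx0 j (by omega),
          hx0 (j - 1) (by omega)]
        simp
      · subst h
        rw [Pi.mulSingle_eq_same, Pi.mul_apply, Pi.inv_apply, hx1 1 le_rfl, hx0 (1 - 1) (by omega)]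
        simp
      · rw [Pi.mulSingle_eq_of_ne (by omega), Pi.mul_apply, Pi.inv_apply, hx1 j (by omega),
          hx1 (j - 1) (by omega)]
        simp
    rw [← PP_single', ← e3, map_mul, map_inv, ← e2, ← e1]
    group

lemma comm_mem (h k : H0) : h.1 * k.1 * h.1⁻¹ * k.1⁻¹ ∈ surf.G := (h * k * h⁻¹ * k⁻¹).2.1

lemma alg {G : Type} [Group G] (c Ψ t : G) : Ψ * t * Ψ⁻¹ * t⁻¹ =
    c * ((c⁻¹ * Ψ * c) * (c⁻¹ * t * c) * (c⁻¹ * Ψ * c)⁻¹ * (c⁻¹ * t * c)⁻¹) * c⁻¹ := by group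

lemma conj_mem {c g : Equiv.Perm ℂ} (hc : c ∈ surf.G) (hg : g ∈ surf.G)
    (h : ∀ z, Esc z → 1 ≤ ‖z‖ → g (c z) = c z) : ∃ k : H0, k.1 = c⁻¹ * g * c :=
  ⟨⟨c⁻¹ * g * c, surf.G.mul_mem (surf.G.mul_mem (surf.G.inv_mem hc) hg) hc,
    suppIn_conj hg hc h⟩, rfl⟩

theorem H0_bdd {ν : Equiv.Perm ℂ → ℝ} (hν : Len ν) : ∃ C : ℝ, ∀ g ∈ H0, ν g ≤ C := by
  obtain ⟨t, ht, t1, t2⟩ := exists_shift
  obtain ⟨c, hcG, hca⟩ : ∃ c ∈ surf.G, ∀ z, c z = gam (-1) (gam 1 z) :=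
    ⟨gam (-1) * gam 1, surf.G.mul_mem (gam_mem _) (gam_mem _), fun _ => rfl⟩
  obtain ⟨k, hk⟩ := conj_mem hcG ht (fun z hz h1 => by rw [hca]; exact t1 z hz h1)
  obtain ⟨C, hC⟩ := comm_bdd hν k
  refine ⟨C + 2 * ν c + 2 * ν (Tr 1), fun g hg => ?_⟩
  obtain ⟨Ψ, hΨ, p1, p2⟩ := shift_comm t2 ⟨g, hg⟩
  obtain ⟨h, hh⟩ := conj_mem hcG hΨ (fun z hz h1 => by rw [hca]; exact p1 z hz h1)
  have h1 := hC h
  have e : Tr 1 * g * (Tr 1)⁻¹ = c * (h.1 * k.1 * h.1⁻¹ * k.1⁻¹) * c⁻¹ := by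
    rw [hh, hk]
    exact p2.trans (alg c Ψ t)
  have h2 := hν.le_conj (Tr_mem 1) hg.1
  have h3 := hν.conj_le hcG (comm_mem h k)
  rw [e] at h2
  linarith

theorem fix_bdd {ν : Equiv.Perm ℂ → ℝ} (hν : Len ν) : ∃ C : ℝ, ∀ j : ℤ, ∀ g ∈ surf.G,
    (∀ z, Esc z → 1 ≤ ‖z‖ → g (gam j (gam 1 z)) = gam j (gam 1 z)) → ν g ≤ C := by
  obtain ⟨C, hC⟩ := H0_bdd hν
  have key : ∀ a ∈ surf.G, ∀ g ∈ surf.G, (∀ z, Esc z → 1 ≤ ‖z‖ → g (a z) = a z) →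
      ν g ≤ C + 2 * ν a := by
    intro a ha g hg h
    have h1 : a⁻¹ * g * a ∈ H0 := ⟨surf.G.mul_mem (surf.G.mul_mem (surf.G.inv_mem ha) hg) ha,
      suppIn_conj hg ha h⟩
    have h2 := hν.conj_le ha h1.1
    have h3 : a * (a⁻¹ * g * a) * a⁻¹ = g := by group
    rw [h3] at h2
    linarith [hC _ h1]
  set a1 : Equiv.Perm ℂ := gam 1 * gam 1 with ha1
  set a3 : Equiv.Perm ℂ := gam 3 * gam 1 with ha3
  have ha1G : a1 ∈ surf.G := surf.G.mul_mem (gam_mem _) (gam_mem _)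
  have ha3G : a3 ∈ surf.G := surf.G.mul_mem (gam_mem _) (gam_mem _)
  refine ⟨max (C + 2 * ν a1) (C + 2 * ν a3 + 2 * (C + 2 * ν (gam 1))), fun j g hg h => ?_⟩
  by_cases hj : j = 1
  · subst hj
    exact (key a1 ha1G g hg h).trans (le_max_left _ _)
  · refine le_trans ?_ (le_max_right _ _)
    obtain ⟨u, hu, u1, u2⟩ := agree (φ := Tr (3 - j)) (Tr_mem _) (n := j) (K := {1}) hj (by
      rintro k hk z hz hz1
      have hk' : k = 1 := hk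
      subst hk'
      rw [Tr_apply hz]
      refine disc_sep (n := 3) (j := 1) (by norm_num) ?_
      have : z + ((3 - j : ℤ) : ℂ) * tau - ((3 : ℤ) : ℂ) * tau = z - (j : ℂ) * tau := by
        push_cast; ring
      rw [this]; exact hz1)
    have b1 : ν u ≤ C + 2 * ν (gam 1) := by
      refine key (gam 1) (gam_mem 1) u hu fun z hz hz1 => ?_
      refine u1 1 rfl _ ?_
      rw [gam_norm hz]; exact inv_le_one_of_one_le₀ hz1
    have b2 : ∀ z, Esc z → 1 ≤ ‖z‖ → u (gam j (gam 1 z)) = gam 3 (gam 1 z) := by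
      intro z hz hz1
      have hw : Esc (gam 1 z) := esc_gam.2 hz
      have hw' : Esc (gam j (gam 1 z)) := esc_gam.2 hw
      rw [u2 z hz hz1, Tr_apply hw', gam_apply hw, gam_apply hw]
      push_cast; ring
    have b3 : ν (u * g * u⁻¹) ≤ C + 2 * ν a3 := by
      refine key a3 ha3G _ (surf.G.mul_mem (surf.G.mul_mem hu hg) (surf.G.inv_mem hu)) ?_
      intro z hz hz1
      have e1 : a3 z = u (gam j (gam 1 z)) := (b2 z hz hz1).symm
      rw [e1, Equiv.Perm.mul_apply, Equiv.Perm.mul_apply, inv_app, h z hz hz1]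
    have b4 := hν.le_conj hu hg
    linarith

/-- **Length functions on the group are bounded.** -/
theorem bdd {ν : Equiv.Perm ℂ → ℝ} (hν : Len ν) : ∃ C : ℝ, ∀ g ∈ surf.G, ν g ≤ C := by
  obtain ⟨C, hC⟩ := fix_bdd hν
  refine ⟨C + C, fun φ hφ => ?_⟩
  obtain ⟨n, j, hnj, hsep⟩ := exists_discs hφ
  obtain ⟨g, hg, g1, g2⟩ := agree hφ (n := n) (K := {j}) hnj (by
    rintro k hk z hz hz1
    have hk' : k = j := hk
    subst hk'
    exact hsep z hz hz1)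
  have h1 : ν g ≤ C := by
    refine hC j g hg fun z hz hz1 => g1 j rfl _ ?_
    have hw : Esc (gam 1 z) := esc_gam.2 hz
    rw [gam_norm hw]
    have h4 : 1 < ‖gam 1 z‖ := by
      have h5 : ‖gam 1 z - ((1 : ℤ) : ℂ) * tau‖ ≤ 1 := by
        rw [gam_norm hz]; exact inv_le_one_of_one_le₀ hz1
      have h6 := disc_sep (n := 1) (j := 0) (by norm_num) h5
      simpa using h6
    exact (inv_lt_one_of_one_lt₀ h4).le
  have hgφ : g⁻¹ * φ ∈ surf.G := surf.G.mul_mem (surf.G.inv_mem hg) hφ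
  have h2 : ν (g⁻¹ * φ) ≤ C := by
    refine hC n _ hgφ fun z hz hz1 => ?_
    rw [Equiv.Perm.mul_apply, ← g2 z hz hz1, inv_app]
  have h3 := hν.mul g hg (g⁻¹ * φ) hgφ
  have h4 : g * (g⁻¹ * φ) = φ := by group
  rw [h4] at h3
  linarith

end Pool.Agent.KS6_77.AreaB
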