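import Pool.Agent.KS6_77.AreaB.Conn

/-! Infinite products of elements supported in the translates of the disc. -/

set_option autoImplicit false

open scoped Topology ContDiff NNReal commutatorElement
open Set Filter Complex Metric

noncomputable section

namespace Pool.Agent.KS6_77.AreaB

open Pool.Agent.Helper186.Area

/-- the elements of the group supported in the unit disc -/
def H0 : Subgroup (Equiv.Perm ℂ) where
  carrier := {g | g ∈ surf.G ∧ SuppIn K0 g}
  one_mem' := ⟨surf.G.one_mem, fun _ _ => rfl⟩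
  mul_mem' := fun h1 h2 => ⟨surf.G.mul_mem h1.1 h2.1, h1.2.mul h2.2⟩
  inv_mem' := fun h => ⟨surf.G.inv_mem h.1, h.2.inv⟩

lemma mem_H0 {g : Equiv.Perm ℂ} : g ∈ H0 ↔ g ∈ surf.G ∧ SuppIn K0 g := Iff.rfl

lemma red_cen (z : ℂ) : red z + cen z = z := by rw [red]; ring

lemma small_map {g : Equiv.Perm ℂ} (hs : SuppIn K0 g) {w : ℂ} (hw : ‖w‖ < 1) : ‖g w‖ < 1 := by
  by_contra h
  have h1 := hs (g w) h
  have h2 := g.injective h1
  rw [h2] at h
  exact h hw

lemma idx_map {g : Equiv.Perm ℂ} (hs : SuppIn K0 g) (z : ℂ) :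
    idx (g (red z) + cen z) = idx z ∧ red (g (red z) + cen z) = g (red z) := by
  by_cases h : ‖red z‖ < 1
  · have h1 := small_map hs h
    have h2 : ‖(g (red z) + cen z) - (idx z : ℂ) * tau‖ < 5 := by
      rw [← cen, add_sub_cancel_right]; linarith
    refine ⟨idx_of_near h2, ?_⟩
    rw [red_of_near h2, ← cen, add_sub_cancel_right]
  · rw [hs _ h, red_cen]; exact ⟨rfl, rfl⟩

lemma cen_map {g : Equiv.Perm ℂ} (hs : SuppIn K0 g) (z : ℂ) :
    cen (g (red z) + cen z) = cen z := by
  rw [cen, (idx_map hs z).1, ← cen]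

lemma esc_red (z : ℂ) : Esc (red z) ↔ Esc z := by
  have := esc_add z (-idx z)
  have h2 : z + ((-idx z : ℤ) : ℂ) * tau = red z := by rw [red, cen]; push_cast; ring
  rwa [h2] at this

/-- The product of the `x k`, moved to the `k`-th disc. -/
def PP : (ℤ → H0) →* Equiv.Perm ℂ where
  toFun x :=
    { toFun := fun z => (x (idx z)).1 (red z) + cen z
      invFun := fun z => ((x (idx z)).1)⁻¹ (red z) + cen z
      left_inv := fun z => by
        change ((x (idx ((x (idx z)).1 (red z) + cen z))).1)⁻¹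
          (red ((x (idx z)).1 (red z) + cen z)) + cen ((x (idx z)).1 (red z) + cen z) = z
        rw [(idx_map (x (idx z)).2.2 z).1, (idx_map (x (idx z)).2.2 z).2,
          cen_map (x (idx z)).2.2 z, inv_app, red_cen]
      right_inv := fun z => by
        have h := (x (idx z)).2.2.inv
        change (x (idx (((x (idx z)).1)⁻¹ (red z) + cen z))).1
          (red (((x (idx z)).1)⁻¹ (red z) + cen z)) + cen (((x (idx z)).1)⁻¹ (red z) + cen z) = z
        rw [(idx_map h z).1, (idx_map h z).2, cen_map h z, app_inv, red_cen] }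
  map_one' := by
    ext1 z
    change red z + cen z = z
    exact red_cen z
  map_mul' x y := by
    ext1 z
    change ((x (idx z)).1 * (y (idx z)).1) (red z) + cen z =
      (x (idx ((y (idx z)).1 (red z) + cen z))).1
          (red ((y (idx z)).1 (red z) + cen z)) + cen ((y (idx z)).1 (red z) + cen z)
    rw [(idx_map (y (idx z)).2.2 z).1, (idx_map (y (idx z)).2.2 z).2,
          cen_map (y (idx z)).2.2 z, Equiv.Perm.mul_apply]

lemma PP_apply (x : ℤ → H0) (z : ℂ) : PP x z = (x (idx z)).1 (red z) + cen z := rfl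

lemma PP_mem (x : ℤ → H0) : PP x ∈ surf.G := by
  refine ⟨fun z hz => ?_, fun z hz => ?_⟩
  · have h1 : red z ∉ surf.S := fun h => hz ((esc_red z).1 h)
    rw [PP_apply, (x (idx z)).2.1.1 _ h1, red_cen]
  · rcases lt_or_ge ‖red z‖ 5 with h5 | h5
    · have he : ∀ᶠ z' in 𝓝 z, ‖z' - (idx z : ℂ) * tau‖ < 5 := by
        have hc : Continuous (fun z' : ℂ => ‖z' - (idx z : ℂ) * tau‖) := by fun_prop
        exact hc.continuousAt.eventually (gt_mem_nhds h5)
      have hg := (x (idx z)).2.1
      have hE1 : Esc (z + ((-idx z : ℤ) : ℂ) * tau) := (esc_add z (-idx z)).2 hz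
      have h1 := apAt_add z (-idx z) hz
      have h2 := hg.2 _ hE1
      have hE2 : Esc ((x (idx z)).1 (z + ((-idx z : ℤ) : ℂ) * tau)) := G_maps (R := surf) hg hE1
      have h3 := apAt_add _ (idx z) hE2
      have h4 : APAt rho rho ((fun w => w + (idx z : ℂ) * tau) ∘
          ((x (idx z)).1 ∘ fun w => w + ((-idx z : ℤ) : ℂ) * tau)) z :=
        APAt.comp (g := fun w => w + (idx z : ℂ) * tau)
          (f := (x (idx z)).1 ∘ fun w => w + ((-idx z : ℤ) : ℂ) * tau) h3
          (APAt.comp (g := (x (idx z)).1) (f := fun w => w + ((-idx z : ℤ) : ℂ) * tau) h2 h1)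
      refine h4.congr ?_
      filter_upwards [he] with z' hz'
      have h6 := idx_of_near hz'
      have h7 := red_of_near hz'
      rw [PP_apply, h6, h7, cen, h6]
      simp only [Function.comp_apply]
      congr 2
      push_cast; ring
    · refine APAt.id.congr ?_
      filter_upwards [eventually_red_gt (z := z) (a := 1) (by norm_num) (by linarith)] with z' hz'
      rw [PP_apply, (x (idx z')).2.2 _ (not_lt.2 hz'.le), red_cen]

lemma Tr_inv_apply {n : ℤ} {z : ℂ} (hz : Esc z) : (Tr n)⁻¹ z = z + (-n : ℤ) * tau := by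
  have h1 : Esc (z + (-n : ℤ) * tau) := (esc_add z (-n)).2 hz
  rw [Equiv.Perm.inv_eq_iff_eq, Tr_apply h1]
  push_cast; ring

lemma Tr_PP (n : ℤ) (x : ℤ → H0) : Tr n * PP x * (Tr n)⁻¹ = PP (fun k => x (k - n)) := by
  ext1 z
  simp only [Equiv.Perm.mul_apply]
  by_cases hz : Esc z
  · have h1 : Esc (z + (-n : ℤ) * tau) := (esc_add z (-n)).2 hz
    rw [Tr_inv_apply hz, Tr_apply (G_maps (R := surf) (PP_mem x) h1), PP_apply, PP_apply, idx_add,
      red_add, cen_add, ← sub_eq_add_neg]
    push_cast; ring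
  · rw [(surf.G.inv_mem (Tr_mem n)).1 z hz, (PP_mem x).1 z hz, (Tr_mem n).1 z hz,
      (PP_mem _).1 z hz]

lemma PP_single (g : H0) : PP (Pi.mulSingle 0 g) = g.1 := by
  ext1 z
  rw [PP_apply]
  by_cases h : idx z = 0
  · have hc : cen z = 0 := by rw [cen, h]; simp
    have hr : red z = z := by rw [red, hc, sub_zero]
    rw [h, Pi.mulSingle_eq_same, hc, hr, add_zero]
  · rw [Pi.mulSingle_eq_of_ne h]
    have h1 : z ∉ K0 := by
      intro h1
      apply h
      refine idx_of_near (k := 0) ?_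
      have h3 : ‖z‖ < 1 := h1
      simp only [Int.cast_zero, zero_mul, sub_zero]; linarith
    rw [g.2.2 z h1]
    exact red_cen z

lemma PP_single' (k : ℤ) (g : H0) : PP (Pi.mulSingle k g) = Tr k * g.1 * (Tr k)⁻¹ := by
  rw [← PP_single, Tr_PP]
  congr 1
  funext j
  by_cases h : j = k
  · subst h
    rw [Pi.mulSingle_eq_same, sub_self, Pi.mulSingle_eq_same]
  · rw [Pi.mulSingle_eq_of_ne h, Pi.mulSingle_eq_of_ne (sub_ne_zero.2 h)]

end Pool.Agent.KS6_77.AreaB
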